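import Pool.Agent.H629.CG.Stm

/-!
# [GIR] Girsanov for the moments of the centered field
-/

set_option autoImplicit false

namespace Pool.Agent.H935.CG.GIR

open MeasureTheory ProbabilityTheory Filter Topology Set
open scoped ENNReal NNReal
open Pool.Agent.H629.CG

theorem ex_add (x y : ℝ) : ex (x + y) = ex x * ex y := by
  unfold ex
  rw [Real.exp_add, ENNReal.ofReal_mul (Real.exp_pos x).le]

theorem ex_ne_zero (x : ℝ) : ex x ≠ 0 := by
  unfold ex
  rw [Ne, ENNReal.ofReal_eq_zero, not_le]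
  exact Real.exp_pos x

theorem ex_ne_top (x : ℝ) : ex x ≠ ∞ := ENNReal.ofReal_ne_top

theorem ex_rpow (x q : ℝ) : (ex x) ^ q = ex (q * x) := by
  unfold ex
  rw [ENNReal.ofReal_rpow_of_pos (Real.exp_pos x), ← Real.exp_mul, mul_comm]

theorem mul_rpow' {x : ℝ≥0∞} (h0 : x ≠ 0) (h1 : x ≠ ∞) (y : ℝ≥0∞) (q : ℝ) :
    (x * y) ^ q = x ^ q * y ^ q := by
  rw [ENNReal.mul_rpow_eq_ite, if_neg]
  rintro ⟨⟨h, -⟩ | ⟨h, -⟩, -⟩
  · exact h0 h
  · exact h1 h

theorem measurable_ex : Measurable ex := by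
  unfold ex
  exact ENNReal.measurable_ofReal.comp Real.measurable_exp

section

variable {Ω : Type} [MeasurableSpace Ω] {P : Measure Ω} {A : Set ℝ} {X : ℝ → Ω → ℝ}
  {K : ℝ → ℝ → ℝ}

theorem meas_X (h : LNF A P X K) (t : ℝ) : Measurable (X t) :=
  h.meas.comp (measurable_const.prodMk measurable_id)

/-- measurability of integrals over the space variable -/
theorem meas_int (h : LNF A P X K) {w : ℝ → ℝ} (hw : Measurable w) (ν : Measure ℝ) [SFinite ν] :
    Measurable (fun ω => ∫⁻ u, ENNReal.ofReal (w u * Real.exp (X u ω)) ∂ν) := by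
  have h1 : Measurable (Function.uncurry
      (fun (ω : Ω) (u : ℝ) => ENNReal.ofReal (w u * Real.exp (X u ω)))) := by
    refine ENNReal.measurable_ofReal.comp ?_
    refine (hw.comp measurable_snd).mul (Real.measurable_exp.comp ?_)
    exact h.meas.comp (measurable_snd.prodMk measurable_fst)
  exact h1.lintegral_prod_right'

/-- the density -/
noncomputable def DD (P : Measure Ω) (X : ℝ → Ω → ℝ) (t₀ q : ℝ) (ω : Ω) : ℝ≥0∞ :=
  ex (-q * (X t₀ ω - ∫ ω', X t₀ ω' ∂P) - (-q) ^ 2 * cov[X t₀, X t₀; P] / 2)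

theorem meas_DD (h : LNF A P X K) (t₀ q : ℝ) : Measurable (DD P X t₀ q) := by
  unfold DD
  refine measurable_ex.comp ?_
  have := meas_X h t₀
  fun_prop

theorem gfd_apply (hG : S_GFD) (h : LNF A P X K) {t₀ : ℝ} (ht : t₀ ∈ A) (q : ℝ) (n : ℕ)
    (U : Fin n → ℝ) (hU : ∀ i, U i ∈ A) (g : (Fin n → ℝ) → ℝ≥0∞) (hg : Measurable g) :
    ∫⁻ ω, DD P X t₀ q ω * g (fun i => X (U i) ω) ∂P =
      ∫⁻ ω, g (fun i => X (U i) ω + -q * K (U i) t₀) ∂P := by
  have h1 := h.gauss (n + 1) (Fin.cons t₀ U) (fun i => by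
    refine Fin.cases ?_ (fun j => ?_) i
    · exact ht
    · exact hU j)
  have h2 : (fun ω (i : Fin (n + 1)) => X ((Fin.cons t₀ U : Fin (n + 1) → ℝ) i) ω) =
      (fun ω (i : Fin (n + 1)) =>
        (Fin.cons (X t₀ ω) (fun j => X (U j) ω) : Fin (n + 1) → ℝ) i) := by
    funext ω i
    refine Fin.cases ?_ (fun j => ?_) i
    · rfl
    · rfl
  rw [h2] at h1
  have h3 := hG n Ω P (fun j => X (U j)) (X t₀) h1 (-q) g hg
  unfold DD
  rw [h3]
  refine lintegral_congr fun ω => ?_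
  congr 1
  funext i
  rw [h.cov (U i) (hU i) t₀ ht]

end

theorem t_GIR : S_LNM → S_GFD → S_TRP → S_GIR := by
  intro hL hG hT Ω _ P _ A X K t₀ hA hA0 hA1 hX ht₀ hV k w hk hkK hw hwb q
  obtain ⟨V, hV⟩ := hV
  obtain ⟨a, b₁, ha, hab⟩ := hwb
  have hX0 := meas_X hX t₀
  -- the normalised volume
  obtain ⟨ν, hν⟩ : ∃ ν : Measure ℝ, ν = (volume A)⁻¹ • volume.restrict A := ⟨_, rfl⟩
  have hνp : IsProbabilityMeasure ν := by
    refine ⟨?_⟩
    rw [hν, Measure.smul_apply, Measure.restrict_apply MeasurableSet.univ, univ_inter, smul_eq_mul]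
    exact ENNReal.inv_mul_cancel hA0.ne' hA1
  have hνA : ∀ᵐ u ∂ν, u ∈ A := by
    rw [hν]
    exact Measure.ae_smul_measure (ae_restrict_mem hA) _
  have hνint : ∀ f : ℝ → ℝ≥0∞, ∫⁻ u, f u ∂ν = (volume A)⁻¹ * ∫⁻ u in A, f u := by
    intro f
    rw [hν, lintegral_smul_measure, smul_eq_mul]
  -- the extended weights
  classical
  obtain ⟨w', hw'⟩ : ∃ w' : ℝ → ℝ, w' = A.piecewise w (fun _ => 1) := ⟨_, rfl⟩
  obtain ⟨k', hk'⟩ : ∃ k' : ℝ → ℝ, k' = A.piecewise k (fun _ => 0) := ⟨_, rfl⟩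
  have hw'm : Measurable w' := by rw [hw']; exact hw.piecewise hA measurable_const
  have hk'm : Measurable k' := by rw [hk']; exact hk.piecewise hA measurable_const
  have hw'A : ∀ u ∈ A, w' u = w u := fun u hu => by rw [hw']; exact Set.piecewise_eq_of_mem _ _ _ hu
  have hk'A : ∀ u ∈ A, k' u = K u t₀ := fun u hu => by
    rw [hk', Set.piecewise_eq_of_mem _ _ _ hu]; exact hkK u hu
  have hw'p : ∀ u, 0 < w' u := by
    intro u
    by_cases hu : u ∈ A
    · rw [hw'A u hu]; exact lt_of_lt_of_le ha (hab u hu).1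
    · rw [hw', Set.piecewise_eq_of_notMem _ _ _ hu]; exact one_pos
  -- the density
  have hDm := meas_DD hX t₀ q
  obtain ⟨Q, hQ⟩ : ∃ Q : Measure Ω, Q = P.withDensity (DD P X t₀ q) := ⟨_, rfl⟩
  have hQint : ∀ g : Ω → ℝ≥0∞, Measurable g → ∫⁻ ω, g ω ∂Q = ∫⁻ ω, DD P X t₀ q ω * g ω ∂P := by
    intro g hg
    rw [hQ, lintegral_withDensity_eq_lintegral_mul P hDm hg]
    rfl
  have hQp : IsProbabilityMeasure Q := by
    refine ⟨?_⟩
    have h1 := gfd_apply hG hX ht₀ q 0 (fun _ => t₀) (fun _ => ht₀) (fun _ => 1) measurable_const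
    rw [hQ, withDensity_apply _ MeasurableSet.univ, Measure.restrict_univ]
    simpa using h1
  -- the two functions
  obtain ⟨f, hf⟩ : ∃ f : ℝ → Ω → ℝ, f = fun u ω => w' u * Real.exp (X u ω) := ⟨_, rfl⟩
  obtain ⟨f', hf'⟩ : ∃ f' : ℝ → Ω → ℝ,
    f' = fun u ω => (w' u * Real.exp (-q * k' u)) * Real.exp (X u ω) := ⟨_, rfl⟩
  have hfm : Measurable (Function.uncurry f) := by
    rw [hf]
    exact (hw'm.comp measurable_fst).mul (Real.measurable_exp.comp hX.meas)
  have hf'm : Measurable (Function.uncurry f') := by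
    rw [hf']
    exact ((hw'm.comp measurable_fst).mul (Real.measurable_exp.comp
      ((measurable_const.mul hk'm).comp measurable_fst))).mul (Real.measurable_exp.comp hX.meas)
  have hfp : ∀ u ω, 0 < f u ω := fun u ω => by
    rw [hf]; exact mul_pos (hw'p u) (Real.exp_pos _)
  have hf'p : ∀ u ω, 0 < f' u ω := fun u ω => by
    rw [hf']; exact mul_pos (mul_pos (hw'p u) (Real.exp_pos _)) (Real.exp_pos _)
  have hfu : ∀ u, Measurable (f u) := fun u =>
    hfm.comp (measurable_const.prodMk measurable_id)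
  -- Girsanov for finitely many points
  have hgir : ∀ (n : ℕ) (U : Fin n → ℝ), (∀ i, U i ∈ A) → ∀ (b : ℝ) (c : ℝ≥0∞),
      ∫⁻ ω, ENNReal.ofReal (∑ i, f (U i) ω) ^ b * c ∂Q =
        ∫⁻ ω, ENNReal.ofReal (∑ i, f' (U i) ω) ^ b * c ∂P := by
    intro n U hU b c
    have hgm : Measurable (fun y : Fin n → ℝ =>
        ENNReal.ofReal (∑ i, w' (U i) * Real.exp (y i)) ^ b * c) := by
      refine Measurable.mul_const (Measurable.pow_const (ENNReal.measurable_ofReal.comp ?_) _) _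
      refine Finset.measurable_sum _ fun i _ => ?_
      exact measurable_const.mul (Real.measurable_exp.comp (measurable_pi_apply i))
    rw [hQint]
    · have h1 := gfd_apply hG hX ht₀ q n U hU _ hgm
      rw [hf]
      refine h1.trans (lintegral_congr fun ω => ?_)
      congr 3
      refine Finset.sum_congr rfl fun i _ => ?_
      rw [hf', Real.exp_add, ← hk'A (U i) (hU i)]
      ring
    · refine Measurable.mul_const (Measurable.pow_const (ENNReal.measurable_ofReal.comp ?_) _) _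
      exact Finset.measurable_sum _ fun i _ => hfu (U i)
  -- moments
  have hmom : ∀ b : ℝ, ∃ C : ℝ≥0∞, C ≠ ∞ ∧ ∀ u ∈ A, ∫⁻ ω, ENNReal.ofReal (f' u ω) ^ b ∂P ≤ C := by
    intro b
    have hV0 : 0 ≤ V := (abs_nonneg _).trans (hV t₀ ht₀ t₀ ht₀)
    refine ⟨ENNReal.ofReal ((a ^ b + b₁ ^ b) * Real.exp (|q * b| * V)) *
      ex (|(b ^ 2 - b) / 2| * V), ENNReal.mul_ne_top ENNReal.ofReal_ne_top (ex_ne_top _),
      fun u hu => ?_⟩
    have h1 : ∀ ω, ENNReal.ofReal (f' u ω) ^ b =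
        ENNReal.ofReal ((w' u) ^ b * Real.exp (-q * b * k' u)) * (ex (X u ω)) ^ b := by
      intro ω
      have hp : 0 < w' u * Real.exp (-q * k' u) := mul_pos (hw'p u) (Real.exp_pos _)
      rw [hf']
      simp only
      rw [ENNReal.ofReal_mul hp.le]
      have h2 : ENNReal.ofReal (w' u * Real.exp (-q * k' u)) ≠ 0 := by
        rw [Ne, ENNReal.ofReal_eq_zero, not_le]; exact hp
      rw [mul_rpow' h2 ENNReal.ofReal_ne_top, ENNReal.ofReal_rpow_of_pos hp,
        Real.mul_rpow (hw'p u).le (Real.exp_pos _).le, ← Real.exp_mul]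
      have h3 : -q * k' u * b = -q * b * k' u := by ring
      rw [h3]
      rfl
    have hexX : Measurable (fun ω => (ex (X u ω)) ^ b) :=
      Measurable.pow_const (measurable_ex.comp (meas_X hX u)) _
    rw [lintegral_congr h1, lintegral_const_mul _ hexX, hL Ω P A X K hX u hu b]
    have hwu := hab u hu
    have hau : 0 < w u := lt_of_lt_of_le ha hwu.1
    have hb1 : 0 < b₁ := lt_of_lt_of_le hau hwu.2
    have hKu := hV u hu t₀ ht₀
    have hKuu := hV u hu u hu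
    refine mul_le_mul' (ENNReal.ofReal_le_ofReal ?_) (ENNReal.ofReal_le_ofReal ?_)
    · rw [hw'A u hu, hk'A u hu]
      have h4 : w u ^ b ≤ a ^ b + b₁ ^ b := by
        rcases le_total 0 b with hb | hb
        · have := Real.rpow_le_rpow hau.le hwu.2 hb
          have := Real.rpow_pos_of_pos ha b
          linarith
        · have := Real.rpow_le_rpow_of_nonpos ha hwu.1 hb
          have := Real.rpow_pos_of_pos hb1 b
          linarith
      have h5 : -q * b * K u t₀ ≤ |q * b| * V := by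
        calc -q * b * K u t₀ ≤ |-q * b * K u t₀| := le_abs_self _
          _ = |q * b| * |K u t₀| := by
            rw [abs_mul, neg_mul, abs_neg]
          _ ≤ |q * b| * V := mul_le_mul_of_nonneg_left hKu (abs_nonneg _)
      have h6 : 0 ≤ w u ^ b := (Real.rpow_pos_of_pos hau b).le
      exact mul_le_mul h4 (Real.exp_le_exp.2 h5) (Real.exp_pos _).le (h6.trans h4)
    · refine Real.exp_le_exp.2 ?_
      calc (b ^ 2 - b) / 2 * K u u ≤ |(b ^ 2 - b) / 2 * K u u| := le_abs_self _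
        _ = |(b ^ 2 - b) / 2| * |K u u| := abs_mul _ _
        _ ≤ |(b ^ 2 - b) / 2| * V := mul_le_mul_of_nonneg_left hKuu (abs_nonneg _)
  have hmP : ∀ b : ℝ, ∃ C : ℝ≥0∞, C ≠ ∞ ∧ ∀ᵐ u ∂ν, ∫⁻ ω, ENNReal.ofReal (f' u ω) ^ b ∂P ≤ C := by
    intro b
    obtain ⟨C, hC, h1⟩ := hmom b
    refine ⟨C, hC, ?_⟩
    filter_upwards [hνA] with u hu
    exact h1 u hu
  have hmQ : ∀ b : ℝ, ∃ C : ℝ≥0∞, C ≠ ∞ ∧ ∀ᵐ u ∂ν, ∫⁻ ω, ENNReal.ofReal (f u ω) ^ b ∂Q ≤ C := by
    intro b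
    obtain ⟨C, hC, h1⟩ := hmom b
    refine ⟨C, hC, ?_⟩
    filter_upwards [hνA] with u hu
    have h2 := hgir 1 (fun _ => u) (fun _ => hu) b 1
    simp only [Finset.univ_unique, Finset.sum_const, Finset.card_singleton, one_smul, mul_one]
      at h2
    rw [h2]
    exact h1 u hu
  -- the limits
  have hlimQ := (hT ℝ Ω ν Q f hfm hfp hmQ q).1
  have hlimP := (hT ℝ Ω ν P f' hf'm hf'p hmP q).1
  have hUA : ∀ᵐ U ∂(Measure.infinitePi fun _ : ℕ => ν), ∀ i : ℕ, U i ∈ A := by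
    rw [ae_all_iff]
    intro i
    exact (measurePreserving_eval_infinitePi (fun _ : ℕ => ν) i).quasiMeasurePreserving.ae hνA
  have heq : ∀ n : ℕ, ∫⁻ U : ℕ → ℝ, ∫⁻ ω,
      ENNReal.ofReal (∑ i : Fin (n + 1), f (U i) ω) ^ q * ENNReal.ofReal (n + 1) ^ (-q) ∂Q
      ∂(Measure.infinitePi fun _ : ℕ => ν) = ∫⁻ U : ℕ → ℝ, ∫⁻ ω,
      ENNReal.ofReal (∑ i : Fin (n + 1), f' (U i) ω) ^ q * ENNReal.ofReal (n + 1) ^ (-q) ∂P
      ∂(Measure.infinitePi fun _ : ℕ => ν) := by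
    intro n
    refine lintegral_congr_ae ?_
    filter_upwards [hUA] with U hU
    exact hgir (n + 1) (fun i => U i) (fun i => hU i) q _
  have hkey := tendsto_nhds_unique hlimQ (hlimP.congr fun n => (heq n).symm)
  -- rewrite the two sides
  have hc0 : (volume A)⁻¹ ≠ 0 := ENNReal.inv_ne_zero.2 hA1
  have hc1 : (volume A)⁻¹ ≠ ∞ := ENNReal.inv_ne_top.2 hA0.ne'
  have hM : Measurable (fun ω => mass A w X ω) := meas_int hX hw _
  have hfint : ∀ ω, ∫⁻ u, ENNReal.ofReal (f u ω) ∂ν = (volume A)⁻¹ * mass A w X ω := by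
    intro ω
    rw [hνint]
    congr 1
    unfold mass
    refine setLIntegral_congr_fun hA fun u hu => ?_
    rw [hf, ← hw'A u hu]
  have hf'int : ∀ ω, ∫⁻ u, ENNReal.ofReal (f' u ω) ∂ν =
      (volume A)⁻¹ * mass A (fun u => w u * Real.exp (-q * k u)) X ω := by
    intro ω
    rw [hνint]
    congr 1
    unfold mass
    refine setLIntegral_congr_fun hA fun u hu => ?_
    beta_reduce
    rw [hf', hkK u hu, ← hw'A u hu, ← hk'A u hu]
  have hcq0 : ((volume A)⁻¹) ^ q ≠ 0 := by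
    rw [Ne, ENNReal.rpow_eq_zero_iff]
    rintro (⟨h, -⟩ | ⟨h, -⟩)
    · exact hc0 h
    · exact hc1 h
  have hcq1 : ((volume A)⁻¹) ^ q ≠ ∞ := by
    rw [Ne, ENNReal.rpow_eq_top_iff]
    rintro (⟨h, -⟩ | ⟨h, -⟩)
    · exact hc0 h
    · exact hc1 h
  have hDM : Measurable (fun ω => DD P X t₀ q ω * (mass A w X ω) ^ q) := hDm.mul (hM.pow_const _)
  have hL1 : ∫⁻ ω, (∫⁻ u, ENNReal.ofReal (f u ω) ∂ν) ^ q ∂Q =
      ((volume A)⁻¹) ^ q * ∫⁻ ω, DD P X t₀ q ω * (mass A w X ω) ^ q ∂P := by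
    simp only [hfint]
    rw [hQint _ ((hM.const_mul _).pow_const _), ← lintegral_const_mul _ hDM]
    refine lintegral_congr fun ω => ?_
    rw [mul_rpow' hc0 hc1]
    ring
  have hR1 : ∫⁻ ω, (∫⁻ u, ENNReal.ofReal (f' u ω) ∂ν) ^ q ∂P =
      ((volume A)⁻¹) ^ q *
        ∫⁻ ω, (mass A (fun u => w u * Real.exp (-q * k u)) X ω) ^ q ∂P := by
    simp only [hf'int]
    have hM' : Measurable (fun ω => mass A (fun u => w u * Real.exp (-q * k u)) X ω) :=
      meas_int hX (hw.mul (Real.measurable_exp.comp (measurable_const.mul hk))) _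
    rw [← lintegral_const_mul _ (hM'.pow_const _)]
    refine lintegral_congr fun ω => ?_
    rw [mul_rpow' hc0 hc1]
  rw [hL1, hR1] at hkey
  have hkey2 := (ENNReal.mul_right_inj hcq0 hcq1).1 hkey
  rw [← hkey2, ← lintegral_const_mul _ hDM]
  refine lintegral_congr fun ω => ?_
  have h1 : mass A w (fun u ω => X u ω - X t₀ ω) ω = ex (-X t₀ ω) * mass A w X ω := by
    unfold mass
    rw [← lintegral_const_mul' _ _ (ex_ne_top _)]
    refine lintegral_congr fun u => ?_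
    unfold ex
    beta_reduce
    rw [← ENNReal.ofReal_mul (Real.exp_pos _).le, sub_eq_add_neg, Real.exp_add]
    congr 1
    ring
  rw [h1, mul_rpow' (ex_ne_zero _) (ex_ne_top _), ex_rpow, ← mul_assoc]
  congr 1
  unfold DD
  rw [← ex_add, hX.mean t₀ ht₀, hX.cov t₀ ht₀ t₀ ht₀]
  congr 1
  ring

end Pool.Agent.H935.CG.GIR
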